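import Pool.Agent.P.MP_90a930_lc.DgMain

namespace Pool.Agent.Results.MP_90a930_lc.DegreeThreshold

theorem result (D : ℕ) (c : ℝ) (hc : D ≤ 2 ∨ 3 / 4 < c) :
    (∀ (n : ℕ) (G : SimpleGraph (Fin n)) (f : Sym2 (Fin n) → ℕ) (d : ℝ),
      (∀ v, (G.neighborSet v).ncard ≤ D) → G.edgeSet.Nonempty → (∀ e ∈ G.edgeSet, 1 ≤ f e) →
      IsGreatest {y : ℝ | ∃ z : Sym2 (Fin n) → ℝ,
        (∀ e ∈ G.edgeSet, z e ∈ Set.Icc (0 : ℝ) 1) ∧ ∑ᶠ e ∈ G.edgeSet, z e = 1 ∧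
        ∃ w : ℝ, IsGreatest {x : ℝ | ∃ M : G.Subgraph, Maximal SimpleGraph.Subgraph.IsMatching M ∧
          x = ∑ᶠ e ∈ M.edgeSet, z e * (f e : ℝ)} w ∧ y = 1 / w} d → d ≤ c →
      ∃ S : ℕ → G.Subgraph, (∀ t, (S t).IsMatching) ∧
        ∀ e ∈ G.edgeSet, ∀ t : ℕ, ∃ s : ℕ, t ≤ s ∧ s < t + f e ∧ e ∈ (S s).edgeSet) ↔
    (D ≤ 1 ∨ (D = 2 ∧ c < 5 / 6)) :=
  Pool.Agent.P.MP_90a930_lc.Dg.main D c hc

/-- The poly density of every instance exists, so the hypothesis on `d` is never empty. -/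
theorem density_exists (n : ℕ) (G : SimpleGraph (Fin n)) (f : Sym2 (Fin n) → ℕ)
    (hne : G.edgeSet.Nonempty) (hf : ∀ e ∈ G.edgeSet, 1 ≤ f e) :
    ∃ d : ℝ, IsGreatest {y : ℝ | ∃ z : Sym2 (Fin n) → ℝ,
        (∀ e ∈ G.edgeSet, z e ∈ Set.Icc (0 : ℝ) 1) ∧ ∑ᶠ e ∈ G.edgeSet, z e = 1 ∧
        ∃ w : ℝ, IsGreatest {x : ℝ | ∃ M : G.Subgraph, Maximal SimpleGraph.Subgraph.IsMatching M ∧
          x = ∑ᶠ e ∈ M.edgeSet, z e * (f e : ℝ)} w ∧ y = 1 / w} d :=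
  Pool.Agent.P.MP_90a930_lc.Dg.exists_density hne hf

/-- The negated form of Q1, with maximum degree at most two, derived from `result`. -/
theorem posed :
    ∃ (n : ℕ) (G : SimpleGraph (Fin n)) (f : Sym2 (Fin n) → ℕ) (d : ℝ),
      (∀ v, (G.neighborSet v).ncard ≤ 2) ∧ G.edgeSet.Nonempty ∧ (∀ e ∈ G.edgeSet, 1 ≤ f e) ∧
      IsGreatest {y : ℝ | ∃ z : Sym2 (Fin n) → ℝ,
        (∀ e ∈ G.edgeSet, z e ∈ Set.Icc (0 : ℝ) 1) ∧ ∑ᶠ e ∈ G.edgeSet, z e = 1 ∧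
        ∃ w : ℝ, IsGreatest {x : ℝ | ∃ M : G.Subgraph, Maximal SimpleGraph.Subgraph.IsMatching M ∧
          x = ∑ᶠ e ∈ M.edgeSet, z e * (f e : ℝ)} w ∧ y = 1 / w} d ∧ d ≤ 5 / 6 ∧
      ¬ ∃ S : ℕ → G.Subgraph, (∀ t, (S t).IsMatching) ∧
        ∀ e ∈ G.edgeSet, ∀ t : ℕ, ∃ s : ℕ, t ≤ s ∧ s < t + f e ∧ e ∈ (S s).edgeSet := by
  by_contra h
  have k := (result 2 (5 / 6) (Or.inl le_rfl)).1 fun n G f d a b c' e g => by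
    by_contra hn
    exact h ⟨n, G, f, d, a, b, c', e, g, hn⟩
  rcases k with k | ⟨-, k⟩
  · omega
  · exact lt_irrefl _ k

end Pool.Agent.Results.MP_90a930_lc.DegreeThreshold
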