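import Pool.Agent.P.MP_90a930_lc.BpMain

namespace Pool.Agent.Results.MP_90a930_lc.LargeFrequencies

theorem result (c : ℝ) :
    (∃ N : ℕ, ∀ (n : ℕ) (G : SimpleGraph (Fin n)) (f : Sym2 (Fin n) → ℕ) (d : ℝ),
      G.edgeSet.Nonempty → (∀ e ∈ G.edgeSet, 1 ≤ f e) → (∀ e ∈ G.edgeSet, N ≤ f e) →
      IsGreatest {y : ℝ | ∃ z : Sym2 (Fin n) → ℝ,
        (∀ e ∈ G.edgeSet, z e ∈ Set.Icc (0 : ℝ) 1) ∧ ∑ᶠ e ∈ G.edgeSet, z e = 1 ∧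
        ∃ w : ℝ, IsGreatest {x : ℝ | ∃ M : G.Subgraph, Maximal SimpleGraph.Subgraph.IsMatching M ∧
          x = ∑ᶠ e ∈ M.edgeSet, z e * (f e : ℝ)} w ∧ y = 1 / w} d → d ≤ c →
      ∃ S : ℕ → G.Subgraph, (∀ t, (S t).IsMatching) ∧
        ∀ e ∈ G.edgeSet, ∀ t : ℕ, ∃ s : ℕ, t ≤ s ∧ s < t + f e ∧ e ∈ (S s).edgeSet) ↔ c < 1 :=
  Pool.Agent.P.MP_90a930_lc.Bp.main c

/-- The poly density of every instance exists, so the hypothesis on `d` is never empty. -/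
theorem density_exists (n : ℕ) (G : SimpleGraph (Fin n)) (f : Sym2 (Fin n) → ℕ)
    (hne : G.edgeSet.Nonempty) (hf : ∀ e ∈ G.edgeSet, 1 ≤ f e) :
    ∃ d : ℝ, IsGreatest {y : ℝ | ∃ z : Sym2 (Fin n) → ℝ,
        (∀ e ∈ G.edgeSet, z e ∈ Set.Icc (0 : ℝ) 1) ∧ ∑ᶠ e ∈ G.edgeSet, z e = 1 ∧
        ∃ w : ℝ, IsGreatest {x : ℝ | ∃ M : G.Subgraph, Maximal SimpleGraph.Subgraph.IsMatching M ∧
          x = ∑ᶠ e ∈ M.edgeSet, z e * (f e : ℝ)} w ∧ y = 1 / w} d :=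
  Pool.Agent.P.MP_90a930_lc.Dg.exists_density hne hf

/-- Only the vertex load is used: the sum of the reciprocal frequencies over edges at a vertex. -/
theorem by_load (c : ℝ) (hc : c < 1) : ∃ N : ℕ, 1 ≤ N ∧
    ∀ (n : ℕ) (G : SimpleGraph (Fin n)) (f : Sym2 (Fin n) → ℕ), (∀ e ∈ G.edgeSet, N ≤ f e) →
      (∀ (v : Fin n) (F : Finset (Sym2 (Fin n))), (∀ e ∈ F, e ∈ G.edgeSet) → (∀ e ∈ F, v ∈ e) →
        ∑ e ∈ F, 1 / (f e : ℝ) ≤ c) →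
      ∃ S : ℕ → G.Subgraph, (∀ t, (S t).IsMatching) ∧
        ∀ e ∈ G.edgeSet, ∀ t : ℕ, ∃ s : ℕ, t ≤ s ∧ s < t + f e ∧ e ∈ (S s).edgeSet :=
  Pool.Agent.P.MP_90a930_lc.Bp.sched_load hc

end Pool.Agent.Results.MP_90a930_lc.LargeFrequencies
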