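import Pool.Agent.P.MP_90a930_lc.Quarter

namespace Pool.Agent.Results.MP_90a930_lc.Strict

theorem result (c : ℝ) (hc : 3 / 4 < c) :
    ∃ (G : SimpleGraph (Fin 7)) (f : Sym2 (Fin 7) → ℕ) (d : ℝ),
    G.IsBipartite ∧ G.edgeSet.Nonempty ∧ (∀ e ∈ G.edgeSet, 1 ≤ f e) ∧
    IsGreatest {y : ℝ | ∃ z : Sym2 (Fin 7) → ℝ,
      (∀ e ∈ G.edgeSet, z e ∈ Set.Icc (0 : ℝ) 1) ∧ ∑ᶠ e ∈ G.edgeSet, z e = 1 ∧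
      ∃ w : ℝ, IsGreatest {x : ℝ | ∃ M : G.Subgraph, Maximal SimpleGraph.Subgraph.IsMatching M ∧
        x = ∑ᶠ e ∈ M.edgeSet, z e * (f e : ℝ)} w ∧ y = 1 / w} d ∧ d < c ∧
    ¬ ∃ S : ℕ → G.Subgraph, (∀ t, (S t).IsMatching) ∧
      ∀ e ∈ G.edgeSet, ∀ t : ℕ, ∃ s : ℕ, t ≤ s ∧ s < t + f e ∧ e ∈ (S s).edgeSet :=
  Pool.Agent.P.MP_90a930_lc.Quarter.main c hc

end Pool.Agent.Results.MP_90a930_lc.Strict
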